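import Pool.Agent.W770.PC.Stms

/-! Polynomial functions on the plane: smoothness and partial derivatives. -/

set_option autoImplicit false

open MeasureTheory Set Filter Topology
open scoped ENNReal NNReal

namespace Pool.Agent.W202.PC.Dpf

open Pool.Agent.W770.PC
open MvPolynomial

theorem hasDerivAt_eval {σ : Type} [DecidableEq σ] (p : MvPolynomial σ ℝ) (z : σ → ℝ) (j : σ) :
    HasDerivAt (fun s => eval (Function.update z j s) p) (eval z (pderiv j p)) (z j) := by
  induction p using MvPolynomial.induction_on with
  | C a => simpa using hasDerivAt_const (z j) a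
  | add p q hp hq =>
    simp only [map_add]
    exact hp.add hq
  | mul_X p i hp =>
    have hX : HasDerivAt (fun s => Function.update z j s i) (if i = j then 1 else 0) (z j) := by
      by_cases hij : i = j
      · subst hij
        simp only [Function.update_self, if_true]
        exact hasDerivAt_id' (z i)
      · simpa [hij] using hasDerivAt_const (z j) (z i)
    have := hp.mul hX
    rw [Function.update_eq_self] at this
    have e1 : eval z (pderiv j (p * X i)) =
        eval z (pderiv j p) * z i + eval z p * (if i = j then 1 else 0) := by
      rw [pderiv_mul, map_add, map_mul, map_mul, eval_X, pderiv_X, Pi.single_apply]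
      by_cases hij : i = j
      · simp [hij]
      · simp [hij]
    have e2 : (fun s => eval (Function.update z j s) (p * X i)) =
        fun s => eval (Function.update z j s) p * Function.update z j s i := by
      ext s; simp
    rw [e1, e2]
    exact this

theorem contDiff_pf (P : MvPolynomial (Fin 2) ℝ) : ContDiff ℝ (⊤ : ℕ∞) (pf P) := by
  induction P using MvPolynomial.induction_on with
  | C a =>
    have : pf (C a) = fun _ => a := by funext y; simp [pf]
    rw [this]
    exact contDiff_const
  | add p q hp hq =>
    have : pf (p + q) = fun y => pf p y + pf q y := by funext y; simp [pf]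
    rw [this]
    exact hp.add hq
  | mul_X p i hp =>
    have : pf (p * X i) = fun y => pf p y * (![y.1, y.2] i) := by funext y; simp [pf]
    rw [this]
    refine hp.mul ?_
    fin_cases i
    · exact contDiff_fst
    · exact contDiff_snd

theorem d1_pf (P : MvPolynomial (Fin 2) ℝ) : d1 (pf P) = pf (pderiv 0 P) := by
  funext y
  unfold d1 pf
  have h := hasDerivAt_eval P ![y.1, y.2] 0
  have h1 : (fun s => eval (Function.update ![y.1, y.2] 0 s) P) = fun u => eval ![u, y.2] P := by
    funext s
    congr 2
    funext i
    fin_cases i <;> simp
  rw [h1] at h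
  exact h.deriv

theorem d2_pf (P : MvPolynomial (Fin 2) ℝ) : d2 (pf P) = pf (pderiv 1 P) := by
  funext y
  unfold d2 pf
  have h := hasDerivAt_eval P ![y.1, y.2] 1
  have h1 : (fun s => eval (Function.update ![y.1, y.2] 1 s) P) = fun u => eval ![y.1, u] P := by
    funext s
    congr 2
    funext i
    fin_cases i <;> simp
  rw [h1] at h
  exact h.deriv

theorem dpf_thm : S_dpf := by
  intro P
  refine ⟨contDiff_pf P, d1_pf P, d2_pf P, ?_, ?_⟩
  · intro t
    funext y
    simp [ph, pf]
  · intro t
    refine (totalDegree_add _ _).trans (max_le_max le_rfl ?_)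
    refine (totalDegree_mul _ _).trans ?_
    rw [totalDegree_C, zero_add]
    refine (totalDegree_add _ _).trans (max_le ?_ ?_)
    · exact (totalDegree_pow _ _).trans (by rw [totalDegree_X])
    · exact (totalDegree_pow _ _).trans (by rw [totalDegree_X])

end Pool.Agent.W202.PC.Dpf
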